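import Pool.Agent.Helper53.PT.GoalsD
import Pool.Agent.Helper55.PT.ENODE
import Pool.Agent.Helper61.PT.RL

/-!
# MP_705522_gt, project (T) of helper53, packet ENN: one node of the energy test
-/

set_option autoImplicit false

namespace Pool.Agent.Helper27.PT

open MeasureTheory Set Pool.Agent.Helper53.PT

namespace ENN

attribute [local irreducible] N.tPL N.tPU N.tSL N.tSU N.tTL N.tTU N.tST N.tU0 N.tU1 N.tU2 N.tP1
  N.tI1 N.tI2 N.tRH N.tRI N.tLU N.tLL N.tF N.tN0 N.tSG N.tW N.fld N.fld6 N.xgN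

theorem frc_eq {α : Type} (n : ℕ) (f : ℕ → α) : N.frc n f = f n := by cases n <;> rfl

theorem cond_ble {α : Type} (a b : ℕ) (x y : α) :
    cond (Nat.ble a b) x y = if a ≤ b then x else y := by
  by_cases h : a ≤ b
  · rw [if_pos h, Nat.ble_eq_true_of_le h]; rfl
  · rw [if_neg h]
    have : Nat.ble a b = false := by
      rw [← Bool.not_eq_true, Nat.ble_eq]
      exact h
    rw [this]; rfl

theorem mx_eq (a b : ℕ) : N.mx a b = max a b := by
  unfold N.mx
  rw [cond_ble]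
  split_ifs with h
  · rw [max_eq_right h]
  · rw [max_eq_left (le_of_lt (not_le.1 h))]

theorem mn_eq (a b : ℕ) : N.mn a b = min a b := by
  unfold N.mn
  rw [cond_ble]
  split_ifs with h
  · rw [min_eq_left h]
  · rw [min_eq_right (le_of_lt (not_le.1 h))]

theorem aR_nonneg (x : ℕ) : 0 ≤ aR x := by unfold aR; positivity

theorem vR_nonneg (x : ℕ) : 0 ≤ vR x := by unfold vR; positivity

theorem aR_mono {x y : ℕ} (h : x ≤ y) : aR x ≤ aR y := by
  unfold aR
  exact div_le_div_of_nonneg_right (by exact_mod_cast h) (by positivity)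

theorem vR_mono {x y : ℕ} (h : x ≤ y) : vR x ≤ vR y := by
  unfold vR
  exact div_le_div_of_nonneg_right (by exact_mod_cast h) (by positivity)

theorem aR_mul (x y : ℕ) : aR (x * y) = aR x * y := by
  unfold aR
  push_cast
  ring

theorem aR_one : aR (2 ^ 26) = 1 := by unfold aR; norm_num

theorem aR_sub {x : ℕ} (h : x ≤ 2 ^ 26) : aR (N.oneA - x) = 1 - aR x := by
  have e : N.oneA = 2 ^ 26 := rfl
  rw [e]
  unfold aR
  rw [Nat.cast_sub h]
  push_cast
  ring

theorem mul40 (u v : ℕ) : vR u * vR v ≤ vR (Nat.succ (Nat.shiftRight (Nat.mul u v) 40)) := by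
  have e : Nat.shiftRight (Nat.mul u v) 40 = u * v / 2 ^ 40 := by
    show (u * v) >>> 40 = _
    rw [Nat.shiftRight_eq_div_pow]
  rw [e]
  have h0 := Nat.lt_mul_div_succ (u * v) (by norm_num : 0 < 2 ^ 40)
  have h : ((u * v : ℕ) : ℝ) ≤ ((2 ^ 40 * (u * v / 2 ^ 40 + 1) : ℕ) : ℝ) := by
    exact_mod_cast h0.le
  rw [Nat.cast_mul (2 ^ 40)] at h
  unfold vR
  rw [div_mul_div_comm, div_le_div_iff₀ (by positivity) (by positivity)]
  push_cast at h ⊢
  nlinarith [h]

theorem pp_ge (w : ℕ) : vR w - 1 ≤ vR (N.pp w) := by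
  have e : N.pp w = w - 2 ^ 40 := rfl
  rw [e]
  have h : w ≤ (w - 2 ^ 40) + 2 ^ 40 := by omega
  have h1 : ((w : ℕ) : ℝ) ≤ ((w - 2 ^ 40 : ℕ) : ℝ) + 2 ^ 40 := by exact_mod_cast h
  unfold vR
  rw [sub_le_iff_le_add, ← sub_le_iff_le_add', ← sub_div, div_le_iff₀ (by positivity)]
  linarith

/-- the exponent -/
theorem ex_le (x X l : ℕ) (h : x ≤ 2 ^ 26) :
    vR (Nat.shiftRight (Nat.mul (Nat.mul (Nat.sub N.oneA x) X) l) 26) ≤
      (1 - aR x) * X * vR l := by
  have e : Nat.shiftRight (Nat.mul (Nat.mul (Nat.sub N.oneA x) X) l) 26 =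
      (N.oneA - x) * X * l / 2 ^ 26 := by
    show ((N.oneA - x) * X * l) >>> 26 = _
    rw [Nat.shiftRight_eq_div_pow]
  rw [e, ← aR_sub h]
  have h1 : (((N.oneA - x) * X * l / 2 ^ 26 : ℕ) : ℝ) ≤ (((N.oneA - x) * X * l : ℕ) : ℝ) / 2 ^ 26 := by
    exact_mod_cast Nat.cast_div_le (α := ℝ) (m := (N.oneA - x) * X * l) (n := 2 ^ 26)
  unfold vR aR
  rw [div_mul_eq_mul_div, ← mul_div_assoc, div_le_div_iff_of_pos_right (by positivity)]
  refine h1.trans (le_of_eq ?_)
  push_cast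
  ring

end ENN

open ENN

theorem gENN (hR2 : GREST2) (hRJ : GRSJ) (hG : GGRID) : GENN := by
  intro hRST hE D θ z hT n r t i a1 a2 u v X hr hS hti h1 h2 h12 ha2 hu hsu hsv hX1 hX64
  obtain ⟨-, g1152, -, gmono, -, -, -, -⟩ := hG
  have hXpos : (0 : ℝ) < X := by exact_mod_cast (by omega : 0 < X)
  obtain ⟨a, ha⟩ : ∃ a, a = N.mx a1 u := ⟨_, rfl⟩
  have ha' : a = max a1 u := by rw [ha, mx_eq]
  have haR : max (aR a1) (aR u) = aR a := by
    rw [ha']
    rcases le_total a1 u with h | h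
    · rw [max_eq_right h, max_eq_right (aR_mono h)]
    · rw [max_eq_left h, max_eq_left (aR_mono h)]
  have ha26 : a ≤ 2 ^ 26 := by rw [ha']; exact max_le (h12.trans ha2) hu
  obtain ⟨α, β, hβ, hαβ, hell⟩ := hT.ell (u * X)
  obtain ⟨P1, hP1⟩ : ∃ P1 : ℕ, P1 = cond (Nat.ble (N.zR D) (Nat.mul a X)) 0
      (Nat.succ (Nat.shiftRight (Nat.mul (N.pp (N.tayU D (Nat.mul a X)))
        (N.expUp (Nat.shiftRight (Nat.mul (Nat.mul (Nat.sub N.oneA a) X)
          (N.ell D (Nat.mul u X))) 26))) 40)) := ⟨_, rfl⟩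
  obtain ⟨R, hR⟩ : ∃ R : ℕ, R = N.rst D (cond (Nat.ble (Nat.mul a2 X) (N.xgN D.I.kN)) false true) r
      (N.mn a2 (Nat.sub N.oneA a1)) (Nat.sub N.oneA a2) (Nat.sub N.oneA a1)
      (Nat.mul (Nat.sub N.oneA a1) v) u (Nat.mul 64 X) (Nat.mul 64 X) (Nat.mul a2 X) := ⟨_, rfl⟩
  obtain ⟨P2, hP2⟩ : ∃ P2 : ℕ, P2 = cond (Nat.ble (Nat.mul a2 X) (N.zL D)) 0
      (Nat.succ (Nat.shiftRight (Nat.mul (N.fst D (Nat.mul a1 X) (Nat.mul a2 X)) R) 40)) :=
    ⟨_, rfl⟩
  have hk : N.eNode D r a1 a2 u v X = N.mx P1 P2 := by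
    rw [hP1, hP2, hR, ha]
    unfold N.eNode
    simp only [frc_eq]
  have hB1 : vR P1 ≤ vR (N.mx P1 P2) := by rw [mx_eq]; exact vR_mono (le_max_left _ _)
  have hB2 : vR P2 ≤ vR (N.mx P1 P2) := by rw [mx_eq]; exact vR_mono (le_max_right _ _)
  rw [hk]
  have haX : aR (Nat.mul a X) = aR a * X := aR_mul a X
  have ha1X : aR (Nat.mul a1 X) = aR a1 * X := aR_mul a1 X
  have ha2X : aR (Nat.mul a2 X) = aR a2 * X := aR_mul a2 X
  have ha2' : aR a2 ≤ 1 := by rw [← aR_one]; exact aR_mono ha2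
  refine Pool.Agent.Helper55.PT.gENODE Pool.Agent.Helper61.PT.gRL θ z (xR D.I.kM) (xR D.I.kW)
    (xR D.I.kD) (xR D.I.kN) hT.fa n r t i (aR a1) (aR a2) (aR u) (aR v) X α β
    (vR (N.pp (N.tayU D (Nat.mul a X)))) (vR (N.mx P1 P2)) hr hS hti (aR_nonneg _) h1 h2 ha2'
    (aR_nonneg _) (by rw [← aR_one]; exact aR_mono hu) hsu hsv hXpos (aR_nonneg _) hβ hαβ
    (vR_nonneg _) ?_ ?_
  · rw [haR, ← haX]
    by_cases hz : N.zR D ≤ Nat.mul a X
    · left
      exact hT.zr.le.trans (aR_mono hz)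
    · right
      rw [cond_ble, if_neg hz] at hP1
      have hlt : Nat.mul a X < 2 ^ (32 + 0) := by
        have h3 : N.xgN D.I.kR < N.xgN 1152 := gmono _ _
          (lt_of_le_of_lt hT.i1.2.2.2.1 (lt_of_lt_of_le hT.i1.2.2.2.2.1 hT.i1.2.2.2.2.2)) le_rfl
        rw [g1152] at h3
        exact lt_trans (not_le.1 hz) h3
      constructor
      · obtain ⟨w, e, he1, he2⟩ := hT.tay 0 (Nat.mul a X) (Or.inl rfl) hlt
        have e3 : N.tayU D (Nat.mul a X) = w + e := he1 ℕ Nat.add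
        have e4 : ((Nat.mul a X : ℕ) : ℝ) / 2 ^ (26 + 0) = aR (Nat.mul a X) := rfl
        rw [e4] at he2
        rw [e3]
        have h5 := pp_ge (w + e)
        have h6 : vR (w + e) = vR w + vR e := by unfold vR; push_cast; ring
        have h7 := (abs_le.1 he2).2
        linarith
      · have h8 : Real.exp (-((1 - aR a) * X * (α + β * (aR u * X)))) ≤
            vR (N.expUp (Nat.shiftRight (Nat.mul (Nat.mul (Nat.sub N.oneA a) X)
              (N.ell D (Nat.mul u X))) 26)) := by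
          refine le_trans (Real.exp_le_exp.2 (neg_le_neg ?_)) (hE _).1
          refine (ex_le a X (N.ell D (Nat.mul u X)) ha26).trans ?_
          have h9 : vR (N.ell D (Nat.mul u X)) ≤ α + β * (aR u * X) := by
            have h10 : aR (u * X) = aR u * X := aR_mul u X
            rw [← h10]
            exact hell
          refine mul_le_mul_of_nonneg_left h9 (mul_nonneg ?_ hXpos.le)
          rw [sub_nonneg, ← aR_one]
          exact aR_mono ha26
        refine (mul_le_mul_of_nonneg_left h8 (vR_nonneg _)).trans ?_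
        refine (mul40 _ _).trans ?_
        rw [← hP1]
        exact hB1
  · by_cases hz : Nat.mul a2 X ≤ N.zL D
    · left
      rw [← ha2X]
      exact (aR_mono hz).trans hT.zl.le
    · right
      rw [cond_ble, if_neg hz] at hP2
      have hal : cond (Nat.ble (Nat.mul a2 X) (N.xgN D.I.kN)) false true = true ∨
          Nat.mul a2 X ≤ N.xgN D.I.kN := by
        rw [cond_ble]
        by_cases h3 : Nat.mul a2 X ≤ N.xgN D.I.kN
        · exact Or.inr h3
        · left; rw [if_neg h3]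
      refine ⟨vR (N.fst D (Nat.mul a1 X) (Nat.mul a2 X)), vR R,
        cond (Nat.ble (Nat.mul a2 X) (N.xgN D.I.kN)) false true = true, ?_, ?_, ?_, ?_⟩
      · intro y hy1 hy2 hy3
        exact hT.fst _ _ y hy1 (by rw [ha1X]; exact hy2) (by rw [ha2X]; exact hy3)
      · rcases hal with h3 | h3
        · exact Or.inl h3
        · right
          rw [← ha2X]
          exact aR_mono h3
      · have h := hRST hR2 hRJ hE D θ z hT (cond (Nat.ble (Nat.mul a2 X) (N.xgN D.I.kN)) false true) r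
          (N.mn a2 (Nat.sub N.oneA a1)) (Nat.sub N.oneA a2) (Nat.sub N.oneA a1)
          (Nat.mul (Nat.sub N.oneA a1) v) u (Nat.mul 64 X) (Nat.mul 64 X) (Nat.mul a2 X)
          (Nat.mul_pos (by norm_num) (by omega)) hal
        rw [← hR] at h
        have e1 : aR (Nat.sub N.oneA a1) = 1 - aR a1 := aR_sub (h12.trans ha2)
        have e2 : aR (Nat.sub N.oneA a2) = 1 - aR a2 := aR_sub ha2
        have e3 : aR (N.mn a2 (Nat.sub N.oneA a1)) = min (aR a2) (1 - aR a1) := by
          rw [mn_eq, ← e1]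
          rcases le_total a2 (Nat.sub N.oneA a1) with h | h
          · rw [min_eq_left h, min_eq_left (aR_mono h)]
          · rw [min_eq_right h, min_eq_right (aR_mono h)]
        have e4 : ((Nat.mul (Nat.sub N.oneA a1) v : ℕ) : ℝ) / 2 ^ 52 = (1 - aR a1) * aR v := by
          rw [← e1]
          have e5 : ((Nat.mul (Nat.sub N.oneA a1) v : ℕ) : ℝ) =
            ((Nat.sub N.oneA a1 : ℕ) : ℝ) * (v : ℝ) := Nat.cast_mul _ _
          rw [e5]
          unfold aR
          ring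
        have e6 : ((Nat.mul 64 X : ℕ) : ℝ) / 64 = X := by
          have e7 : ((Nat.mul 64 X : ℕ) : ℝ) = 64 * (X : ℝ) := by
            show ((64 * X : ℕ) : ℝ) = _
            push_cast
            ring
          rw [e7]
          ring
        rw [e1, e2, e3, e4, e6, ha2X] at h
        exact h
      · refine (mul40 _ _).trans ?_
        rw [← hP2]
        exact hB2

end Pool.Agent.Helper27.PT
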